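import Pool.Agent.Helper15_SIQ.Stmts

/-!
# MP_021b97_an, Q1, module TOP: separated neighbourhoods of disjoint closed saturated sets
-/

set_option autoImplicit false

open MeasureTheory Filter Topology

namespace Pool.Agent.SIQ.H9

open Pool.Agent.SIU Pool.Agent.SIQ

theorem coord_sq_le (w : E6) (m : Fin 6) : ∃ i, ‖w m‖ ^ 2 ≤ nn w i := by
  obtain ⟨i, rfl | rfl⟩ := blocks m
  · refine ⟨i, ?_⟩
    unfold nn
    have := sq_nonneg ‖w (hi i)‖
    linarith
  · refine ⟨i, ?_⟩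
    unfold nn
    have := sq_nonneg ‖w (lo i)‖
    linarith

theorem norm_lt_of_nn {w : E6} {r : ℝ} (hr : 0 < r) (h : ∀ i, nn w i < r ^ 2) : ‖w‖ < r := by
  rw [pi_norm_lt_iff hr]
  intro m
  obtain ⟨i, hi⟩ := coord_sq_le w m
  exact lt_of_pow_lt_pow_left₀ 2 hr.le (hi.trans_lt (h i))

theorem norm_act_le {u : C3} (hu : ∀ j, ‖u j‖ = 1) (w : E6) : ‖X1.act u w‖ ≤ ‖w‖ := by
  rw [pi_norm_le_iff_of_nonneg (norm_nonneg _)]
  intro m
  obtain ⟨i, rfl | rfl⟩ := blocks m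
  · rw [act1_lo, norm_mul, hu, one_mul]
    exact norm_le_pi_norm w _
  · rw [act1_hi, norm_mul, hu, one_mul]
    exact norm_le_pi_norm w _

theorem act_sub (u : C3) (x y : E6) : X1.act u x - X1.act u y = X1.act u (x - y) := by
  rw [← actL1_apply, ← actL1_apply, ← actL1_apply, map_sub]

theorem act_M1 {u : C3} (hu : ∀ j, ‖u j‖ = 1) {w : E6} (hw : w ∈ M1) : X1.act u w ∈ M1 := by
  intro i
  rw [nn_act, hu, hw i]
  norm_num

theorem nz_act {c : C3} (hc : ∀ j, c j ≠ 0) (z : E6) :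
    nz (X1.act c z) = X1.act (fun i => c i / (‖c i‖ : ℂ)) (nz z) := by
  unfold nz
  rw [act1_act, act1_act]
  congr 1
  funext i
  rw [nn_act, Real.sqrt_mul (by positivity), Real.sqrt_sq (norm_nonneg _)]
  have h : ((‖c i‖ : ℝ) : ℂ) ≠ 0 := by exact_mod_cast norm_ne_zero_iff.mpr (hc i)
  push_cast
  rw [mul_inv]
  field_simp

theorem unit_coef {c : C3} (hc : ∀ j, c j ≠ 0) (j : Fin 3) : ‖c j / (‖c j‖ : ℂ)‖ = 1 := by
  rw [norm_div, Complex.norm_real, norm_norm]
  exact div_self (norm_ne_zero_iff.mpr (hc j))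

theorem unit_ne {c : C3} (hc : ∀ j, c j ≠ 0) (j : Fin 3) : c j / (‖c j‖ : ℂ) ≠ 0 := by
  intro h
  have := unit_coef hc j
  rw [h, norm_zero] at this
  exact zero_ne_one this

theorem continuousOn_nz : ContinuousOn nz X1.U := by
  have hc : ∀ i, ContinuousOn (fun z : E6 => (((√(nn z i))⁻¹ : ℝ) : ℂ)) X1.U := by
    intro i
    refine Complex.continuous_ofReal.comp_continuousOn ?_
    refine ContinuousOn.inv₀ ((Real.continuous_sqrt.comp (continuous_nn i)).continuousOn) ?_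
    intro z hz
    exact (Real.sqrt_pos.mpr ((mem_U1' z).mp hz i)).ne'
  refine continuousOn_pi.mpr fun m => ?_
  obtain ⟨i, rfl | rfl⟩ := blocks m
  · have : (fun z : E6 => nz z (lo i)) = fun z => (((√(nn z i))⁻¹ : ℝ) : ℂ) * z (lo i) := by
      funext z
      exact act1_lo _ z i
    rw [this]
    exact (hc i).mul (continuous_apply (lo i)).continuousOn
  · have : (fun z : E6 => nz z (hi i)) = fun z => (((√(nn z i))⁻¹ : ℝ) : ℂ) * z (hi i) := by
      funext z
      exact act1_hi _ z i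
    rw [this]
    exact (hc i).mul (continuous_apply (hi i)).continuousOn

theorem closed_M1 {A : Set E6} (hA : X1.U ∩ closure A ⊆ A) : IsClosed (A ∩ M1) := by
  rw [← closure_subset_iff_isClosed]
  intro z hz
  have h1 : z ∈ closure A := closure_mono Set.inter_subset_left hz
  have h2 : z ∈ M1 := by
    have := closure_mono (Set.inter_subset_right : A ∩ M1 ⊆ M1) hz
    rwa [isCompact_M1.isClosed.closure_eq] at this
  exact ⟨hA ⟨M1_subset h2, h1⟩, h2⟩

/-- the saturated neighbourhoods -/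
def Nh (A : Set E6) (δ : ℝ) : Set E6 := X1.U ∩ nz ⁻¹' (Metric.thickening δ (A ∩ M1))

theorem Nh_open (A : Set E6) (δ : ℝ) : IsOpen (Nh A δ) :=
  continuousOn_nz.isOpen_inter_preimage isOpen_U1 Metric.isOpen_thickening

theorem Nh_sat {A : Set E6} (hA : Sat A) (δ : ℝ) : Sat (Nh A δ) := by
  rintro y ⟨hy, hy'⟩ c hc
  refine ⟨(act1_mem_U hc y).mpr hy, ?_⟩
  show nz (X1.act c y) ∈ Metric.thickening δ (A ∩ M1)
  have h1 : nz y ∈ Metric.thickening δ (A ∩ M1) := hy'
  rw [Metric.mem_thickening_iff] at h1 ⊢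
  obtain ⟨a, ha, hd⟩ := h1
  rw [nz_act hc]
  refine ⟨X1.act (fun i => c i / (‖c i‖ : ℂ)) a, ⟨hA a ha.1 _ (unit_ne hc),
    act_M1 (unit_coef hc) ha.2⟩, ?_⟩
  rw [dist_eq_norm, act_sub]
  exact (norm_act_le (unit_coef hc) _).trans_lt (by rwa [dist_eq_norm] at hd)

theorem sub_Nh {A : Set E6} (hA : Sat A) (hU : A ⊆ X1.U) {δ : ℝ} (hδ : 0 < δ) :
    A ⊆ Nh A δ := by
  intro z hz
  refine ⟨hU hz, ?_⟩
  refine Metric.self_subset_thickening hδ _ ⟨?_, nz_mem (hU hz)⟩
  exact hA z hz _ (nz_coef (hU hz))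

theorem nz_qm (qua : QuaStmt) (g z : E6) : nz (qm g z) = qm (nz g) (nz z) := by
  obtain ⟨q1, -, -, q4, -, -, -, -, -, q10, -⟩ := qua
  unfold nz
  rw [q10 (fun i => (√(nn g i))⁻¹) g, ← q4, act1_act]
  congr 1
  funext i
  rw [q1, Real.sqrt_mul (nn_nonneg g i), mul_inv]
  push_cast
  ring

theorem near_one (qua : QuaStmt) {g w : E6} (hg : g ∈ M1) (hw : w ∈ M1) {r : ℝ} (hr : 0 < r)
    (h : ∀ i, 1 - r ^ 2 / 2 < (g (lo i)).re) : ‖qm g w - w‖ < r := by
  obtain ⟨q1, -, -, -, q5, -, -, -, q9, -⟩ := qua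
  have e : qm g w = qm (g - one6) w + w := by
    have := q9 (g - one6) one6 w
    rw [sub_add_cancel, (q5 w).1] at this
    exact this
  rw [e, add_sub_cancel_right]
  refine norm_lt_of_nn hr fun i => ?_
  rw [q1, hw i, mul_one]
  have hlo : one6 (lo i) = 1 := by fin_cases i <;> rfl
  have hhi : one6 (hi i) = 0 := by fin_cases i <;> rfl
  have e1 : nn (g - one6) i = nn g i - 2 * (g (lo i)).re + 1 := by
    unfold nn
    rw [Pi.sub_apply, Pi.sub_apply, hlo, hhi, sub_zero]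
    simp only [Complex.sq_norm, Complex.normSq_apply]
    simp only [Complex.sub_re, Complex.sub_im, Complex.one_re, Complex.one_im, sub_zero]
    ring
  rw [e1, hg i]
  have := h i
  linarith

theorem top (qua : QuaStmt) : TopStmt := by
  intro A F hAU hFU hAs hFs hdis hA hF
  have hAc : IsCompact (A ∩ M1) :=
    isCompact_M1.of_isClosed_subset (closed_M1 hA) Set.inter_subset_right
  have hd : Disjoint (A ∩ M1) (F ∩ M1) :=
    hdis.mono Set.inter_subset_left Set.inter_subset_left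
  obtain ⟨δ, hδ, hth⟩ := hd.exists_thickenings hAc (closed_M1 hF)
  refine ⟨Nh A (δ / 2), Nh F δ, (δ / 2) ^ 2 / 2, by positivity, Nh_open _ _, Nh_open _ _,
    Nh_sat hAs _, Nh_sat hFs _, sub_Nh hAs hAU (by positivity), sub_Nh hFs hFU hδ,
    Set.inter_subset_left, Set.inter_subset_left, ?_⟩
  rintro z ⟨hz, hz'⟩ g hg hgz ⟨hq, hq'⟩
  have h1 : nz z ∈ Metric.thickening (δ / 2) (A ∩ M1) := hz'
  have h2 : nz (qm g z) ∈ Metric.thickening δ (F ∩ M1) := hq'
  rw [Metric.mem_thickening_iff] at h1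
  obtain ⟨a, ha, hda⟩ := h1
  have h3 : ‖qm (nz g) (nz z) - nz z‖ < δ / 2 := by
    refine near_one qua (nz_mem hg) (nz_mem hz) (by positivity) fun i => ?_
    have e : nz g (lo i) = (((√(nn g i))⁻¹ : ℝ) : ℂ) * g (lo i) := act1_lo _ g i
    rw [e, Complex.re_ofReal_mul]
    have hp := Real.sqrt_pos.mpr ((mem_U1' g).mp hg i)
    rw [← div_eq_inv_mul, lt_div_iff₀ hp]
    exact hgz i
  have h4 : nz (qm g z) ∈ Metric.thickening δ (A ∩ M1) := by
    rw [Metric.mem_thickening_iff]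
    refine ⟨a, ha, ?_⟩
    rw [nz_qm qua]
    calc dist (qm (nz g) (nz z)) a ≤ dist (qm (nz g) (nz z)) (nz z) + dist (nz z) a :=
          dist_triangle _ _ _
      _ < δ / 2 + δ / 2 := add_lt_add (by rwa [dist_eq_norm]) hda
      _ = δ := by ring
  exact Set.disjoint_left.mp hth h4 h2

end Pool.Agent.SIQ.H9
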